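import Pool.Agent.U365.POW.J
import Pool.Agent.Results.MP_4ffbf9_nt.MultiplicativeValues

/-!
# Largest factors of solutions of `A X + B Y = C Z` in products of small spread, and `s(m)`, `m - φ(m)`, `α m + β f(m)`

Let `s(m)` be the sum of the proper divisors of `m`. Let `G` have steps bounded below by a positive constant and growth at most
`v ^ d`, `κ ≥ 0`, `η > 0` and `d η + κ < 1`. For all `S`, `Q`, `P` there are `R` and `δ > 0` such that for a set of `m` of lower
density at least `1 - d η - κ` there is NO solution of `A X + B Y = C Z` with `gcd (X, Y) ≤ Q rad (gcd (X, Y))`, coefficients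
`A, B, C ≤ exp (M ^ δ)` without prime factors larger than `P` and `X`, `Y`, `Z` products of spread at most `S` of degrees between
`R` and `M ^ δ`, whose largest factor `M` satisfies `|M - G (s(m))| ≤ s(m) ^ κ`; and the same holds for `m - φ(m)`. More precisely
this holds for almost all `m` with a divisor `≥ m ^ (d η + κ + ρ)` which is a prime or the product of two different primes, and for
the values `g = α m + β f(m)` of multiplicative functions with `f p = p + c` at the primes, uniformly in `|α|, |β| ≤ N ^ δ'` and
with a power saving in the number of the exceptional `m`.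

Proof. The number of the largest factors `M ≤ X` of solutions is `O (X ^ η)` (starting theorem `HighDegreeCount`, in the form of the
lemma `FactorWindows.count`). Let `m = k v p` with large primes `p ≠ v`. Then `g = A v p + B (v + p) + B c`,
`A = α k + β f(k)`, `B = β c f(k)`, and so `(A v + B) (A p + B) = A g + B² - A B c`: for given `g`, `k`, `α`, `β` there are only
`N^o(1)` possibilities for `p` and `v`.

If the exponent `e` is smaller than `1/2`, no divisor is needed: the property holds for almost all `m` (for all `m ≤ N` but at
most `N / (log N) ^ A`, for every `A`), for all `α ≠ 0`, `β`. Here we use the divisors `D` of `m` without small prime factors: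
`α m` is congruent to `g` modulo `f(D)`; if the size of all such `D` is inconvenient, then `m = R D` where the prime factors of
`D` are so large that `D` lies in a short interval which is given by `R` and `g`.
-/

set_option autoImplicit false

namespace Pool.Agent.Results.MP_4ffbf9_nt.AliquotValues

open Pool.Agent.U365.POW (Law NearAll law_nat law_mono)
open Pool.Agent.N733.TG (Expanding)
open Pool.Agent.Results.MP_4ffbf9_nt.FactorWindows (Member Coef Solved)

/-- There is NO solution of `A X + B Y = C Z` with `gcd (X, Y) ≤ Q rad (gcd (X, Y))`, coefficients `A, B, C ≤ exp (M ^ δ)` without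
prime factors larger than `P` and `X`, `Y`, `Z` products of spread at most `S` of degrees between `R` and `M ^ δ`, whose largest
factor `M` satisfies `|M - G g| ≤ g ^ κ`. -/
def Near (S Q P R : ℕ) (δ : ℝ) (G : ℕ → ℝ) (κ : ℝ) (g : ℕ) : Prop :=
  ¬ ∃ M : ℕ, Solved S Q P R δ M ∧ |(M : ℝ) - G g| ≤ (g : ℝ) ^ κ

/-- **Theorem.** Let `d ≥ 1`, `κ ≥ 0`, `η > 0`, `e = d η + κ < 1` and let `S`, `Q`, `P` be natural numbers. There are `R` and `δ >
0` such that for all `G` with steps `≥ a > 0` and growth at most `v^d`: the property `Near` holds for the values of similar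
functions as the aliquot sum with the exponent `e` (`Law`): if this exponent is smaller than `1/2`, then (1) for ALL `α m + β
f(m)` at almost all `m`, and so for `s(m)` and `m - φ(m)` for almost all `m`; in general, (2) at almost all the `m` with a
divisor `≥ m ^ (e + ρ)` which is a prime or the product of two different primes, and for `s(m)` and `m - φ(m)` for a set of `m`
of lower density at least `1 - (e)`. -/
theorem result : ∀ S Q P : ℕ, ∀ d κ η : ℝ, 0 ≤ κ → 0 < η → d * η + κ < 1 → ∃ (R : ℕ) (δ : ℝ), 0 < δ ∧
      ∀ G : ℕ → ℝ, Expanding G d →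
        Law (d * η + κ) (Near S Q P R δ G κ) := by
  intro S Q P d κ η hκ hη0 hηd
  obtain ⟨R, δ, hδ, C, hC, h⟩ := FactorWindows.count S Q P η hη0
  refine ⟨R, δ, hδ, fun G hG => ?_⟩
  classical
  have h2 := law_nat {M : ℕ | Solved S Q P R δ M} hG (s := η) (κ := κ) hη0.le hκ hηd
    (fun ε hε => by
      refine ⟨C, fun X hX => ?_⟩
      have hX1 : (1 : ℝ) ≤ X := by exact_mod_cast hX
      refine le_trans (le_of_eq ?_) ((h X hX).trans ?_)
      · congr!
      · apply mul_le_mul_of_nonneg_left _ hC
        apply Real.rpow_le_rpow_of_exponent_le hX1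
        linarith)
  have hm : ∀ g : ℕ, (∀ n : ℕ, |(n : ℝ) - G g| ≤ (g : ℝ) ^ κ → 1 ≤ n ∧ n ∉ {M : ℕ | Solved S Q P R δ M}) →
      Near S Q P R δ G κ g := by
    rintro g hg ⟨M, hM, hw⟩
    exact (hg M hw).2 hM
  exact law_mono h2 hm

end Pool.Agent.Results.MP_4ffbf9_nt.AliquotValues
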