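import Pool.Agent.U536.CF.F
import Pool.Agent.Results.MP_4ffbf9_nt.MultiplicativeValues

/-!
# Largest factors of solutions keep away from the integers with a large common factor with a value of a multiplicative function

Let `f` be a positive multiplicative function of at most polynomial growth such that `f p ≤ M p` for the large primes `p`,
with different values at different large primes; for example Euler's function or the sum of the divisors. Let `G` have
steps bounded below by a positive constant and growth at most `v^d`, for example `α v^d`. Let `b < 1` and `0 ≤ c < 2 b -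
1`. For all `m ≤ N` but `N exp (-(log N)^c)`, for EVERY integer `w ≥ exp ((log N)^b)` with `gcd(w, f(m)) ≥ w^ρ`, there is
NO solution of `A X + B Y = C Z` with `gcd (X, Y) ≤ Q rad (gcd (X, Y))`, coefficients `A, B, C ≤ exp (M ^ δ)` without
prime factors larger than `P` and `X`, `Y`, `Z` products of spread at most `S` of degrees between `R` and `M ^ δ`, whose
largest factor `M` satisfies `|M - G w| ≤ w ^ κ`, if `0 ≤ κ < ρ ≤ 1` (`R` and `δ > 0` depend only on `S`, `Q`, `P`, `d`,
`κ`, `ρ`). The integers `w` include all large divisors of `f(m)` and their multiples by small integers; for Euler's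
function, the orders of the elements of the group of units modulo `m`.

Proof. Write `m = k u` with `u` squarefree and composed of primes larger than `N^(1/J)`, `J = (log N)^a`, and `k ≤ exp (4
(log N)^a)`; this is possible for all `m ≤ N` but very few. If `v ∣ f(k) f(u)`, then `v = g v'` with `g ∣ f(k)` and `v' ∣
∏ f(p)`, and the number of such `u ≤ N / k` is at most `N / (k v')` times `(log N)^O(J)` times the number `τ_J(v')` of the
ordered factorizations of `v'` into `J` factors. The inequality `τ_J^q ≤ τ_K` for `K ≥ J^q` and Hölder's inequality bound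
the sum over the sparse set of the exceptional `v`. The file `MultiplicativeValues` of the starting library treats the
integers `w = f(m)`, with `N / (log N)^U` exceptions.
-/

set_option autoImplicit false

namespace Pool.Agent.Results.MP_4ffbf9_nt.CommonFactors

open Pool.Agent.Results.MP_4ffbf9_nt.FactorWindows (Member Coef Solved)
open Pool.Agent.N733.TG (LM Expanding lm_totient lm_sigma expanding_pow)
open Pool.Agent.U536.CF (Common common_win_nat common_of_dvd common_order)

/-- **Largest factors of solutions keep away from the integers with a large common factor with a value of a multiplicative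
function.** Let `f` be multiplicative and positive, of at most polynomial growth, with `f p ≤ M p` at the large primes,
and injective there. Let `G` have steps `≥ a > 0` and growth at most `v^d`. Let `b < 1` and `0 ≤ c < 2 b - 1`, `0 ≤ κ < ρ
≤ 1` (`R` and `δ > 0` depend only on `S`, `Q`, `P`, `d`, `κ`, `ρ`). For all large `N`, for all `m ≤ N` but `N exp (-(log
N)^c)`, for EVERY integer `w ≥ exp ((log N)^b)` with `gcd(w, f(m)) ≥ w^ρ`, there is NO solution of `A X + B Y = C Z` with
`gcd (X, Y) ≤ Q rad (gcd (X, Y))`, coefficients `A, B, C ≤ exp (M ^ δ)` without prime factors larger than `P` and `X`,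
`Y`, `Z` products of spread at most `S` of degrees between `R` and `M ^ δ`, whose largest factor `M` satisfies `|M - G w|
≤ w ^ κ`. All divisors `w ≥ exp ((log N)^b)` of `f(m)` are such integers `w`, and for Euler's function the orders `≥ exp
((log N)^b)` of the units modulo `m`. Euler's function and the sum of the divisors are examples of `f`, and `α v^d` with
`α > 0`, `d ≥ 1` is an example of `G`. -/
theorem result :
    (∀ S Q P : ℕ, ∀ d κ ρ : ℝ, 1 ≤ d → 0 ≤ κ → κ < ρ → ρ ≤ 1 → ∃ (R : ℕ) (δ : ℝ), 0 < δ ∧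
      ∀ f : ℕ → ℕ, LM f → ∀ G : ℕ → ℝ, Expanding G d → ∀ b c : ℝ, b < 1 → 0 ≤ c → c < 2 * b - 1 →
      ∃ N₀ : ℕ, ∀ N : ℕ, N₀ ≤ N →
      ({m : ℕ | 1 ≤ m ∧ m ≤ N ∧ ∃ w : ℕ, Common f b ρ N m w ∧ ∃ M : ℕ, Solved S Q P R δ M ∧
        |(M : ℝ) - G w| ≤ (w : ℝ) ^ κ}.ncard : ℝ) ≤ N * Real.exp (-(Real.log N ^ c))) ∧
    (LM Nat.totient ∧ LM (fun m => ∑ d ∈ m.divisors, d)) ∧
    (∀ α d : ℝ, 0 < α → 1 ≤ d → Expanding (fun v => α * (v : ℝ) ^ d) d) ∧
    (∀ (f : ℕ → ℕ) (b ρ : ℝ) (N m w : ℕ), ρ ≤ 1 → Real.exp (Real.log N ^ b) ≤ (w : ℝ) → w ∣ f m → Common f b ρ N m w) ∧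
    ∀ (b ρ : ℝ) (N m : ℕ), ρ ≤ 1 → ∀ x : (ZMod m)ˣ, Real.exp (Real.log N ^ b) ≤ (orderOf x : ℝ) →
      Common Nat.totient b ρ N m (orderOf x) := by
  refine ⟨?_, ⟨lm_totient, lm_sigma⟩, fun α d hα hd => expanding_pow hα hd, fun f b ρ N m w hρ hw hd => common_of_dvd hρ hw hd,
    fun b ρ N m hρ x hx => common_order hρ x hx⟩
  intro S Q P d κ ρ hd hκ hκ1 hρ
  obtain ⟨η, hη⟩ : ∃ η, η = (ρ - κ) / (2 * d) := ⟨_, rfl⟩
  have hη0 : 0 < η := by
    rw [hη]
    apply div_pos (by linarith) (by linarith)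
  have hηd : d * η + κ < ρ := by
    have : d * η = (ρ - κ) / 2 := by
      rw [hη]
      field_simp
    rw [this]
    linarith
  obtain ⟨R, δ, hδ, C, hC, h⟩ := FactorWindows.count S Q P η hη0
  refine ⟨R, δ, hδ, fun f hf G hG b c hb hc hcb => ?_⟩
  classical
  obtain ⟨N₀, hN₀⟩ := common_win_nat {M : ℕ | Solved S Q P R δ M} hf hG (s := η) (κ := κ) hη0.le hκ hηd hρ hb hc hcb
    (fun ε hε => by
      refine ⟨C, fun X hX => ?_⟩
      have hX1 : (1 : ℝ) ≤ X := by exact_mod_cast hX
      refine le_trans (le_of_eq ?_) ((h X hX).trans ?_)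
      · congr!
      · apply mul_le_mul_of_nonneg_left _ hC
        apply Real.rpow_le_rpow_of_exponent_le hX1
        linarith)
  refine ⟨N₀, fun N hN => le_trans ?_ (hN₀ N hN)⟩
  have hfin : {m : ℕ | 1 ≤ m ∧ m ≤ N ∧ ∃ w : ℕ, Common f b ρ N m w ∧ ∃ n : ℕ, (n = 0 ∨ n ∈ {M : ℕ | Solved S Q P R δ M}) ∧
      |(n : ℝ) - G w| ≤ (w : ℝ) ^ κ}.Finite := by
    apply (Set.finite_Icc 1 N).subset
    intro m hm
    exact ⟨hm.1, hm.2.1⟩
  have h2 : {m : ℕ | 1 ≤ m ∧ m ≤ N ∧ ∃ w : ℕ, Common f b ρ N m w ∧ ∃ M : ℕ, Solved S Q P R δ M ∧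
      |(M : ℝ) - G w| ≤ (w : ℝ) ^ κ} ⊆
      {m : ℕ | 1 ≤ m ∧ m ≤ N ∧ ∃ w : ℕ, Common f b ρ N m w ∧ ∃ n : ℕ, (n = 0 ∨ n ∈ {M : ℕ | Solved S Q P R δ M}) ∧
      |(n : ℝ) - G w| ≤ (w : ℝ) ^ κ} := by
    rintro m ⟨h2, h3, w, hw, n, h5, h6⟩
    exact ⟨h2, h3, w, hw, n, Or.inr h5, h6⟩
  exact_mod_cast Set.ncard_le_ncard h2 hfin

end Pool.Agent.Results.MP_4ffbf9_nt.CommonFactors
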