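import Pool.Agent.U449.BV.C
import Pool.Agent.Results.MP_4ffbf9_nt.FactorWindows

/-!
# Largest factors of solutions of `A X + B Y = C Z` in products of small spread, and polynomials in two variables on arbitrary sets

Let `S`, `Q`, `P` be natural numbers and `0 ≤ κ < e`. There are `R` and `δ₀ > 0` such that for every `δ` with `e < δ ≤ 1` and
every `d` there is `ρ > 0` with the following property, for all large `X`. Let `A`, `B` be ARBITRARY finite sets of at least
`X ^ δ` integers, `f(x, y)` ANY integer polynomial of degree at most `d` with a monomial which contains both variables, and `g`,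
`h` ARBITRARY real functions such that `|f(a, b) + g(a) + h(b)| ≤ X` on `A × B`. Then for all the pairs `(a, b)`, apart from a
proportion of at most `X ^ (-ρ)`, there is NO solution of `A X + B Y = C Z` with `gcd (X, Y) ≤ Q rad (gcd (X, Y))`, coefficients
`A, B, C ≤ exp (M ^ δ₀)` without prime factors larger than `P` and `X`, `Y`, `Z` products of spread at most `S` of degrees
between `R` and `M ^ δ₀`, whose largest factor `M` satisfies `|M - (f(a, b) + g(a) + h(b))| ≤ X ^ κ`. The same holds for the
values `F(a, b)` of all functions of two variables with few coincidences (`Rare`).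

Since `A`, `B`, `g` and `h` are arbitrary, the values have no arithmetic structure, and they may be concentrated: a value can be
taken by `X ^ δ` of the pairs or more. So the number `O (X ^ η)` of the largest factors `M ≤ X` of solutions (starting theorem
`HighDegreeCount`, in the form of the lemma `FactorWindows.count`) does not give the result directly. Proof: the inequality of
Cauchy and Schwarz; for most pairs `a, a'` the difference `F(a, b) - F(a', b)` is small for few `b` (`Pool.Agent.U449.BV`).
-/

set_option autoImplicit false

namespace Pool.Agent.Results.MP_4ffbf9_nt.MixedPolynomials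

open Pool.Agent.U449.BV (Rare OnProducts on_products_nat rare_poly)
open Pool.Agent.Results.MP_4ffbf9_nt.FactorWindows (Member Coef Solved)

/-- There is NO solution of `A X + B Y = C Z` with `gcd (X, Y) ≤ Q rad (gcd (X, Y))`, coefficients `A, B, C ≤ exp (M ^ δ₀)` without
prime factors larger than `P` and `X`, `Y`, `Z` products of spread at most `S` of degrees between `R` and `M ^ δ₀`, whose largest
factor `M` satisfies `|M - x| ≤ W`. -/
def Near (S Q P R : ℕ) (δ₀ : ℝ) (W x : ℝ) : Prop :=
  ∀ M : ℕ, |(M : ℝ) - x| ≤ W → ¬ Solved S Q P R δ₀ M

/-- **Theorem.** Let `S`, `Q`, `P` be natural numbers and `0 ≤ κ < e`. There are `R` and `δ₀ > 0` such that `Near`, with windows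
of length `X ^ κ`, holds for almost all values of functions of two variables with few coincidences, on arbitrary finite sets of
at least `X ^ δ` elements, `δ > e` (`OnProducts`). In particular this is so for the values `f(a, b) + g(a) + h(b)`, where `f` is
any integer polynomial with a monomial which contains both variables, `g` and `h` are arbitrary real functions, and `A` and
`B` are arbitrary finite sets of integers. -/
theorem result :
    (∀ S Q P : ℕ, ∀ e κ : ℝ, 0 ≤ κ → κ < e → ∃ (R : ℕ) (δ₀ : ℝ), 0 < δ₀ ∧ OnProducts e κ (Near S Q P R δ₀)) ∧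
    ∀ (d : ℕ) (f : MvPolynomial (Fin 2) ℤ), f.totalDegree ≤ d → (∃ m ∈ f.support, m 0 ≠ 0 ∧ m 1 ≠ 0) →
      ∀ (g h : ℤ → ℝ) (A B : Finset ℤ),
        Rare d A B (fun a b => ((MvPolynomial.eval ![a, b] f : ℤ) : ℝ) + g a + h b) := by
  classical
  refine ⟨fun S Q P e κ hκ he => ?_, fun d f hd hf g h A B => rare_poly hd hf g h A B⟩
  obtain ⟨R, δ₀, hδ₀, C, hC, hc⟩ := FactorWindows.count S Q P (e - κ) (by linarith)
  refine ⟨R, δ₀, hδ₀, ?_⟩
  have h2 := on_products_nat {M : ℕ | Solved S Q P R δ₀ M} (s := e - κ) (κ := κ) (by linarith) hκ (fun ε hε => by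
    refine ⟨C, fun X hX => ?_⟩
    have hX1 : (1 : ℝ) ≤ X := by exact_mod_cast hX
    refine le_trans (le_of_eq ?_) ((hc X hX).trans ?_)
    · congr!
    · apply mul_le_mul_of_nonneg_left _ hC
      apply Real.rpow_le_rpow_of_exponent_le hX1
      linarith)
  rw [sub_add_cancel] at h2
  exact h2.mono fun W x _ h M hM => (h M hM).2

end Pool.Agent.Results.MP_4ffbf9_nt.MixedPolynomials
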