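import Pool.Agent.U405.RS.F
import Pool.Agent.Results.MP_4ffbf9_nt.FactorWindows

/-!
# Largest factors of solutions of `A X + B Y = C Z` in products of small spread, and values of `f` at thin sets of arguments

Let `f` be a positive multiplicative function of at most polynomial growth which for each `a ≥ 1` is injective at the powers
`p ^ a` of the large primes and at most `M p ^ a` there; for example Euler's function or the sum of the divisors. Let `G` have steps bounded below by a positive constant and growth at most `v^d`, for example `α v^d` with `α > 0` and an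
arbitrary `d ≥ 1`, and let `0 ≤ κ < e`. For all `S`, `Q`, `P` there are `R` and `δ > 0` such that there is no solution of
`A X + B Y = C Z` with `gcd (X, Y) ≤ Q rad (gcd (X, Y))`, coefficients `A, B, C ≤ exp (M ^ δ)` without prime factors larger than
`P` and `X`, `Y`, `Z` products of spread at most `S` of degrees between `R` and `M ^ δ`, whose largest factor `M` satisfies
`|M - G (f v)| ≤ f(v)^κ`, for almost all `v` (with a saving of any power of the logarithm) in each of these sets:

* the values of any integer polynomial without repeated roots, of degree `< 1 / e`;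
* the shifted primes `p + a`, `a` any integer, if `e < 1`;
* the intervals `(x, x + y]`, `x^τ ≤ y ≤ x`, for every `τ > e`, `τ ≤ 1`.

Since `e > κ` is arbitrary, `κ = 0` gives all polynomials without repeated roots, of any degree, and the intervals of length
`x^τ` for every `τ > 0`.

Proof. Own tool `Pool.Agent.U405.RS`: let `S` be a set of at least `N^(θ + δ)` integers up to `N` with at most
`B g^ω(k) |S| / k` multiples of `k` for every `k ≤ N^δ`, and let `W` have at most `C X^θ` elements up to `X`. Then `f(m) ∈ W` for at
most `|S| / (log N)^U` of the `m` in `S`. For this write `m = k w` with `k` composed of the primes `≤ z = N^(1 / J)`, `J` a small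
multiple of `log log N`. By Rankin's method with the weights `g^ω(k)` one has `k ≤ N^η` for most `m`; and `w` has at most `J`
prime factors and exponents `≤ J`, so that `w` is determined by `f(w)` up to `(J τ(f(w)) + 1)^J = N^o(1)` possibilities. The three
kinds of sets satisfy the hypothesis: for polynomials because `P` has at most `g` zeros modulo every prime power (lifting of
zeros by the identity `U P + V P' = R`), for shifted primes by the Brun-Titchmarsh inequality (library). The number of
the largest factors `M ≤ X` of solutions is bounded by the starting theorem `HighDegreeCount` of this problem (in the form of the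
lemma `FactorWindows.count`).
-/

set_option autoImplicit false

namespace Pool.Agent.Results.MP_4ffbf9_nt.SparseArguments

open Pool.Agent.N733.TG (Expanding expanding_pow)
open Pool.Agent.U405.RS (PM Sparse sparse_nat examples)
open Pool.Agent.Results.MP_4ffbf9_nt.FactorWindows (Member Coef Solved)

/-- no solution (in the sense of `Solved S Q P R δ`) has a largest factor `M` with `|M - G v| ≤ v ^ κ` -/
def Clear (S Q P R : ℕ) (δ : ℝ) (G : ℕ → ℝ) (κ : ℝ) (v : ℕ) : Prop :=
  ∀ M : ℕ, Solved S Q P R δ M → ¬ |(M : ℝ) - G v| ≤ (v : ℝ) ^ κ

/-- **Largest factors of solutions keep away from `G (f v)`, `v` in thin sets.** Let `d ≥ 1`, `0 ≤ κ < e` and let `S`, `Q`, `P`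
be natural numbers. There are `R` and `δ > 0` such that for all `f` in the class `PM`, all `G` with steps `≥ const > 0` and
growth at most `v^d` and all `U` the property `Clear S Q P R δ G κ` (there is NO solution of `A X + B Y = C Z` with
`gcd (X, Y) ≤ Q rad (gcd (X, Y))`, coefficients `A, B, C ≤ exp (M ^ δ)` without prime factors larger than `P` and `X`, `Y`, `Z`
products of spread at most `S` of degrees between `R` and `M ^ δ`, whose largest factor `M` satisfies `|M - G v| ≤ v^κ`) holds in
the sense `Sparse e f`: with a saving of `(log x)^U` it holds at `f v` for almost all `v` among the positive values of every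
integer polynomial without repeated roots of degree `< 1 / e`; among the shifted primes `p + a` for every `a`, if `e < 1`; and in
all intervals `(x, x + y]`, `x^τ ≤ y ≤ x`, `e < τ ≤ 1`. Euler's function and the sum of the divisors are in the class, and
`α v^d` with `α > 0`, `d ≥ 1` is an example of `G`. -/
theorem result :
    (∀ S Q P : ℕ, ∀ d κ e : ℝ, 1 ≤ d → 0 ≤ κ → κ < e → ∃ (R : ℕ) (δ : ℝ), 0 < δ ∧
      ∀ f : ℕ → ℕ, PM f → ∀ G : ℕ → ℝ, Expanding G d → ∀ U : ℕ, Sparse e f (Clear S Q P R δ G κ) U) ∧
    (PM Nat.totient ∧ PM (fun m => ∑ d ∈ m.divisors, d) ∧ PM (fun m => m)) ∧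
    ∀ α d : ℝ, 0 < α → 1 ≤ d → Expanding (fun v => α * (v : ℝ) ^ d) d := by
  refine ⟨fun S Q P d κ e hd hκ hκ1 => ?_, examples, fun α d hα hd => expanding_pow hα hd⟩
  obtain ⟨η, hη⟩ : ∃ η, η = (e - κ) / d := ⟨_, rfl⟩
  have hη0 : 0 < η := by
    rw [hη]
    apply div_pos (by linarith) (by linarith)
  have hηd : d * η + κ = e := by
    rw [hη]
    field_simp
    ring
  obtain ⟨R, δ, hδ, C, hC, h⟩ := FactorWindows.count S Q P η hη0
  refine ⟨R, δ, hδ, fun f hf G hG U => ?_⟩
  classical
  rw [← hηd]
  have h2 := sparse_nat (Solved S Q P R δ) (fun _ => False) hf hG (s := η) (κ := κ) hη0.le hκ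
    (fun ε hε => by
      refine ⟨C, fun X hX => ?_⟩
      have hX1 : (1 : ℝ) ≤ X := by exact_mod_cast hX
      refine le_trans (le_of_eq ?_) ((h X hX).trans ?_)
      · rw [← Set.ncard_coe_finset]
        congr 2
        ext t
        simp only [Set.mem_ofPred_eq, Finset.coe_filter, Finset.mem_Ioc]
        constructor
        · rintro ⟨a1, a2, a3, _⟩
          exact ⟨⟨a1, a2⟩, a3⟩
        · rintro ⟨⟨a1, a2⟩, a3⟩
          exact ⟨a1, a2, a3, not_false⟩
      · apply mul_le_mul_of_nonneg_left _ hC
        apply Real.rpow_le_rpow_of_exponent_le hX1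
        linarith) U
  refine h2.imp (fun v hv M hM hc => hv M ?_ hM hc)
  obtain ⟨A, B, Cc, l₁, l₂, l₃, -, -, -, -, -, m1, m2, m3, hm⟩ := hM
  rcases hm with h | h | h
  · exact (m1.2.2.1 M h).1
  · exact (m2.2.2.1 M h).1
  · exact (m3.2.2.1 M h).1

end Pool.Agent.Results.MP_4ffbf9_nt.SparseArguments
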